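import Mathlib
import Pool.Agent.V11270.Sub.Gcd

set_option autoImplicit false

/-!
# Small common divisors of `⌊α b ^ (k + m)⌋ ⌊β b ^ m⌋ + 1` with `b ^ m`
-/

namespace Pool.Agent.Results.MP_077ac3_nt.ProductFloorGcd

open Finset Filter Topology Pool.Agent.V11270.Sub

section tools

lemma irr_rel {A : ℝ} (hA : Irrational A) (p q : ℤ) (h : (p : ℝ) + q * A = 0) :
    p = 0 ∧ q = 0 := by
  have hq : q = 0 := by
    by_contra hq
    apply hA
    refine ⟨-(p : ℚ) / q, ?_⟩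
    have hq' : (q : ℝ) ≠ 0 := by exact_mod_cast hq
    push_cast
    field_simp
    linarith
  refine ⟨?_, hq⟩
  rw [hq] at h
  simpa using h

/-- consequence of Ridout's theorem -/
lemma rid {b : ℕ} (hb : 2 ≤ b) {A : ℝ} (hA : IsAlgebraic ℚ A) (hA' : Irrational A)
    (P C : ℝ) (h : {m : ℕ | |P| * (b : ℝ) ^ m * (A * (b : ℝ) ^ m - ⌊A * (b : ℝ) ^ m⌋) ≤
      C}.Infinite) : P = 0 := by
  have hb1 : (1 : ℝ) < b := by exact_mod_cast hb
  have hb0 : (0 : ℝ) < b := by linarith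
  obtain ⟨M, hM⟩ := ridout hb hA hA' (δ := 1 / 2) (by norm_num)
  have hb2 : (1 : ℝ) < (b : ℝ) ^ (1 / 2 : ℝ) := Real.one_lt_rpow hb1 (by norm_num)
  apply zero_of_inf hb2 P C
  refine (inf_large h M).mono ?_
  rintro m ⟨hm, hmM⟩
  set θ : ℝ := A * (b : ℝ) ^ m - ⌊A * (b : ℝ) ^ m⌋ with hθ
  have hθ0 : 0 ≤ θ := sub_nonneg.2 (Int.floor_le _)
  have h1 := hM m hmM ⌊A * (b : ℝ) ^ m⌋
  rw [← hθ, abs_of_nonneg hθ0] at h1
  have h3 : (b : ℝ) ^ m = ((b : ℝ) ^ (1 / 2 : ℝ)) ^ m * (b : ℝ) ^ ((1 / 2 : ℝ) * m) := by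
    rw [← Real.rpow_natCast ((b : ℝ) ^ (1 / 2 : ℝ)), ← Real.rpow_mul hb0.le,
      ← Real.rpow_add hb0, ← Real.rpow_natCast]
    congr 1
    ring
  have h4 : 1 ≤ (b : ℝ) ^ ((1 / 2 : ℝ) * m) * θ := by
    have h5 : (b : ℝ) ^ ((1 / 2 : ℝ) * m) * (b : ℝ) ^ (-((1 / 2 : ℝ) * m)) = 1 := by
      rw [← Real.rpow_add hb0]
      simp
    have h6 := mul_le_mul_of_nonneg_left h1.le
      (by positivity : (0 : ℝ) ≤ (b : ℝ) ^ ((1 / 2 : ℝ) * m))
    rwa [h5] at h6
  have hm' : |P| * (b : ℝ) ^ m * θ ≤ C := hm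
  calc |P| * ((b : ℝ) ^ (1 / 2 : ℝ)) ^ m = |P| * ((b : ℝ) ^ (1 / 2 : ℝ)) ^ m * 1 := by ring
    _ ≤ |P| * ((b : ℝ) ^ (1 / 2 : ℝ)) ^ m * ((b : ℝ) ^ ((1 / 2 : ℝ) * m) * θ) :=
        mul_le_mul_of_nonneg_left h4 (by positivity)
    _ = |P| * (b : ℝ) ^ m * θ := by rw [h3]; ring
    _ ≤ C := hm'

end tools

/-- The core statement, for the integers `x m = ⌊A b ^ m⌋`, `y m = ⌊B b ^ m⌋`. -/
theorem core (b : ℕ) (hb : 2 ≤ b) (A B : ℝ) (hA : IsAlgebraic ℚ A) (hB : IsAlgebraic ℚ B)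
    (hA' : Irrational A) (hB' : Irrational B) (ε : ℝ) (hε : 0 < ε) :
    ∃ M : ℕ, ∀ m : ℕ, M ≤ m →
      ((Int.gcd (⌊A * (b : ℝ) ^ m⌋ * ⌊B * (b : ℝ) ^ m⌋ + 1) ((b : ℤ) ^ m) : ℕ) : ℝ) <
        (b : ℝ) ^ (ε * m) := by
  by_contra hcon
  push Not at hcon
  have hb1 : (1 : ℝ) < b := by exact_mod_cast hb
  have hb0 : (0 : ℝ) < b := by linarith
  set x : ℕ → ℤ := fun m => ⌊A * (b : ℝ) ^ m⌋ with hxdef
  set y : ℕ → ℤ := fun m => ⌊B * (b : ℝ) ^ m⌋ with hydef
  set g : ℕ → ℕ := fun m => Int.gcd (x m * y m + 1) ((b : ℤ) ^ m) with hgdef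
  set S : Set ℕ := {m : ℕ | (b : ℝ) ^ (ε * m) ≤ g m} with hSdef
  have hS : S.Infinite := by
    rw [Set.infinite_iff_exists_gt]
    intro M
    obtain ⟨m, hm, h⟩ := hcon (M + 1)
    exact ⟨m, h, by omega⟩
  -- fractional parts
  set θ : ℕ → ℝ := fun m => A * (b : ℝ) ^ m - x m with hθ
  set ψ : ℕ → ℝ := fun m => B * (b : ℝ) ^ m - y m with hψ
  have hθ0 : ∀ m, 0 ≤ θ m := fun m => sub_nonneg.2 (Int.floor_le _)
  have hθ1 : ∀ m, θ m < 1 := fun m => by
    have := Int.lt_floor_add_one (A * (b : ℝ) ^ m)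
    simp only [hθ, hxdef]
    linarith
  have hψ0 : ∀ m, 0 ≤ ψ m := fun m => sub_nonneg.2 (Int.floor_le _)
  have hψ1 : ∀ m, ψ m < 1 := fun m => by
    have := Int.lt_floor_add_one (B * (b : ℝ) ^ m)
    simp only [hψ, hydef]
    linarith
  have hxe : ∀ m, (x m : ℝ) = A * (b : ℝ) ^ m - θ m := fun m => by simp only [hθ]; ring
  have hye : ∀ m, (y m : ℝ) = B * (b : ℝ) ^ m - ψ m := fun m => by simp only [hψ]; ring
  have hpow1 : ∀ m : ℕ, 1 ≤ (b : ℝ) ^ m := fun m => one_le_pow₀ hb1.le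
  have hpow0 : ∀ m : ℕ, 0 < (b : ℝ) ^ m := fun m => by positivity
  have hridA : ∀ P C : ℝ, {m : ℕ | |P| * (b : ℝ) ^ m * θ m ≤ C}.Infinite → P = 0 :=
    fun P C h => rid hb hA hA' P C h
  have hridB : ∀ P C : ℝ, {m : ℕ | |P| * (b : ℝ) ^ m * ψ m ≤ C}.Infinite → P = 0 :=
    fun P C h => rid hb hB hB' P C h
  have hθθ : ∀ m, θ m ^ 2 ≤ 1 := fun m => by nlinarith [hθ0 m, hθ1 m]
  have hθψ : ∀ m, θ m * ψ m ≤ 1 := fun m => by nlinarith [hθ0 m, hθ1 m, hψ0 m, hψ1 m]
  have hθψ0 : ∀ m, 0 ≤ θ m * ψ m := fun m => mul_nonneg (hθ0 m) (hψ0 m)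
  -- a linear relation between `b ^ m` and `x m`
  have nolin : ∀ (z : ℕ → ℤ) (E : ℝ), Irrational E → (∀ m, |E * (b : ℝ) ^ m - z m| ≤ 1) →
      ∀ p q : ℤ, {m : ℕ | p * (b : ℤ) ^ m + q * z m = 0}.Infinite → p = 0 ∧ q = 0 := by
    intro z E hE hz p q hinf
    apply irr_rel hE
    apply zero_of_inf hb1 _ (|(q : ℝ)|)
    refine hinf.mono ?_
    intro m hm
    have h1 := congrArg (Int.cast : ℤ → ℝ) (hm : p * (b : ℤ) ^ m + q * z m = 0)
    push_cast at h1
    have h2 : ((p : ℝ) + q * E) * (b : ℝ) ^ m = q * (E * (b : ℝ) ^ m - z m) := by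
      linear_combination h1
    show |(p : ℝ) + q * E| * (b : ℝ) ^ m ≤ |(q : ℝ)|
    rw [← abs_of_pos (hpow0 m), ← abs_mul, h2, abs_mul]
    calc |(q : ℝ)| * |E * (b : ℝ) ^ m - z m| ≤ |(q : ℝ)| * 1 :=
          mul_le_mul_of_nonneg_left (hz m) (abs_nonneg _)
      _ = _ := mul_one _
  have hxA : ∀ m, |A * (b : ℝ) ^ m - x m| ≤ 1 := fun m => by
    have : |θ m| ≤ 1 := by rw [abs_of_nonneg (hθ0 m)]; exact (hθ1 m).le
    exact this
  have hyB : ∀ m, |B * (b : ℝ) ^ m - y m| ≤ 1 := fun m => by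
    have : |ψ m| ≤ 1 := by rw [abs_of_nonneg (hψ0 m)]; exact (hψ1 m).le
    exact this
  have h2alg : IsAlgebraic ℚ (2 : ℝ) := by exact_mod_cast (isAlgebraic_natCast (R := ℚ) (A := ℝ) 2)
  have hintalg : ∀ z : ℤ, IsAlgebraic ℚ (z : ℝ) := fun z => isAlgebraic_intCast z
  -- Part I: no relation `c1 b ^ m + c2 x m + c3 y m = 0` for infinitely many `m ∈ S`
  have part1 : ∀ c1 c2 c3 : ℤ, {m : ℕ | m ∈ S ∧ c1 * (b : ℤ) ^ m + c2 * x m + c3 * y m = 0}.Infinite →
      c1 = 0 ∧ c2 = 0 ∧ c3 = 0 := by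
    intro c1 c2 c3 hinf
    by_cases h3 : c3 = 0
    · obtain ⟨h1, h2⟩ := nolin x A hA' hxA c1 c2 (hinf.mono (by
        rintro m ⟨_, hm⟩
        rw [h3] at hm
        simpa using hm))
      exact ⟨h1, h2, h3⟩
    by_cases h2 : c2 = 0
    · obtain ⟨h1, h3⟩ := nolin y B hB' hyB c1 c3 (hinf.mono (by
        rintro m ⟨_, hm⟩
        rw [h2] at hm
        simpa using hm))
      exact ⟨h1, h2, h3⟩
    exfalso
    have h2R : (c2 : ℝ) ≠ 0 := by exact_mod_cast h2
    have h3R : (c3 : ℝ) ≠ 0 := by exact_mod_cast h3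
    set S1 : Set ℕ := {m : ℕ | m ∈ S ∧ c1 * (b : ℤ) ^ m + c2 * x m + c3 * y m = 0} with hS1
    obtain ⟨d, hd0, hd⟩ := sub_gcd hb (n := 4) (by norm_num)
      !![1, 0, 0, 0; -A, 1, 0, 0; c2 * A ^ 2, -(c1 : ℝ) - 2 * c2 * A, -(c3 : ℝ), c3; 0, 0, 0, 1]
      (by
        intro i j
        fin_cases i <;> fin_cases j <;>
          first
          | exact isAlgebraic_one
          | exact isAlgebraic_zero
          | exact hA.neg
          | exact (hintalg c2).mul (hA.pow 2)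
          | exact (hintalg c1).neg.sub ((h2alg.mul (hintalg c2)).mul hA)
          | exact (hintalg c3).neg
          | exact hintalg c3)
      (by
        simp [Matrix.det_succ_row_zero, Fin.sum_univ_succ, Fin.succAbove]
        exact h3)
      ![2, 1, 0, 0] 2 g ε ![2, 1, 0, 0] (1 + |(c2 : ℝ)|) (by positivity)
      (by simp [Fin.sum_univ_succ]; linarith)
      (fun m => ![(b : ℤ) ^ (2 * m), (b : ℤ) ^ m * x m, x m * y m + 1, 1]) S1 hinf
      (by
        intro m _ h0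
        have := congrFun h0 0
        simp at this
        omega)
      (by
        intro m _
        have h1 : ((Int.gcd (x m * y m + 1) ((b : ℤ) ^ m) : ℕ) : ℤ) ∣ (b : ℤ) ^ m :=
          Int.gcd_dvd_right _ _
        exact_mod_cast h1)
      (fun m hm => hm.1)
      (by
        intro m _ l
        fin_cases l
        · simp
        · simp
        · simp only [Matrix.cons_val, Fin.reduceFinMk, zero_mul, pow_zero, if_true, one_mul]
          exact Int.gcd_dvd_left _ _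
        · simp)
      (by
        intro m hm l
        have hC1 : (1 : ℝ) ≤ 1 + |(c2 : ℝ)| := by linarith [abs_nonneg (c2 : ℝ)]
        fin_cases l
        · simp [Fin.sum_univ_succ]
          rw [← Real.rpow_natCast]
          push_cast
          have := Real.rpow_pos_of_pos hb0 (2 * m)
          nlinarith
        · simp [Fin.sum_univ_succ]
          have h1 : -(A * (b : ℝ) ^ (2 * m)) + (b : ℝ) ^ m * x m = -((b : ℝ) ^ m * θ m) := by
            rw [hxe m]
            ring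
          rw [h1, abs_neg, abs_of_nonneg (mul_nonneg (hpow0 m).le (hθ0 m))]
          nlinarith [hθ1 m, hθ0 m, hpow0 m, hpow1 m, mul_nonneg (abs_nonneg (c2 : ℝ)) (hpow0 m).le]
        · simp [Fin.sum_univ_succ]
          have h0 := congrArg (Int.cast : ℤ → ℝ) hm.2
          push_cast at h0
          have h1 : (c2 : ℝ) * A ^ 2 * (b : ℝ) ^ (2 * m) + ((-(c1 : ℝ) - 2 * c2 * A) *
              ((b : ℝ) ^ m * x m) + (-((c3 : ℝ) * (x m * y m + 1)) + c3)) = c2 * θ m ^ 2 := by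
            have e1 : θ m = A * (b : ℝ) ^ m - x m := rfl
            rw [e1]
            linear_combination (-(x m : ℝ)) * h0
          rw [h1, abs_mul, abs_of_nonneg (sq_nonneg (θ m))]
          nlinarith [hθθ m, abs_nonneg (c2 : ℝ)]
        · simp [Fin.sum_univ_succ])
    simp only [Fin.sum_univ_succ, Matrix.cons_val_zero, Matrix.cons_val_succ, Fin.succ_zero_eq_one,
      Fin.succ_one_eq_two, Finset.univ_eq_empty, Finset.sum_empty] at hd
    set u : ℤ := c3 * d 0 with hu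
    set v : ℤ := c3 * d 1 - d 2 * c1 with hv
    set w : ℤ := -(d 2 * c2) with hw
    set r : ℤ := c3 * (d 2 + d 3) with hr
    have hrel : {m : ℕ | (u : ℝ) * (b : ℝ) ^ (2 * m) + v * ((b : ℝ) ^ m * x m) +
        w * (x m : ℝ) ^ 2 + r = 0}.Infinite := by
      refine hd.mono ?_
      rintro m ⟨hm, h⟩
      have h' := congrArg (Int.cast : ℤ → ℝ) h
      have h0 := congrArg (Int.cast : ℤ → ℝ) hm.2
      push_cast at h' h0
      show (u : ℝ) * (b : ℝ) ^ (2 * m) + v * ((b : ℝ) ^ m * x m) + w * (x m : ℝ) ^ 2 + r = 0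
      rw [hu, hv, hw, hr]
      push_cast
      linear_combination (c3 : ℝ) * h' - (d 2 : ℝ) * x m * h0
    have hexp : ∀ m, (u : ℝ) * (b : ℝ) ^ (2 * m) + v * ((b : ℝ) ^ m * x m) + w * (x m : ℝ) ^ 2 + r =
        (u + v * A + w * A ^ 2) * (b : ℝ) ^ (2 * m) - (v + 2 * w * A) * ((b : ℝ) ^ m * θ m) +
          w * θ m ^ 2 + r := by
      intro m
      rw [hxe m]
      ring
    have hlim : (u : ℝ) + v * A + w * A ^ 2 = 0 := by
      apply zero_of_inf hb1 _ (|(v : ℝ) + 2 * w * A| + |(w : ℝ)| + |(r : ℝ)|)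
      refine hrel.mono ?_
      intro m h
      have h' : (u : ℝ) * (b : ℝ) ^ (2 * m) + v * ((b : ℝ) ^ m * x m) +
        w * (x m : ℝ) ^ 2 + r = 0 := h
      rw [hexp m] at h'
      have h1 : ((u : ℝ) + v * A + w * A ^ 2) * (b : ℝ) ^ (2 * m) =
          (v + 2 * w * A) * ((b : ℝ) ^ m * θ m) - w * θ m ^ 2 - r := by linarith
      have h2 : |(u : ℝ) + v * A + w * A ^ 2| * (b : ℝ) ^ m * (b : ℝ) ^ m ≤
          (|(v : ℝ) + 2 * w * A| + |(w : ℝ)| + |(r : ℝ)|) * (b : ℝ) ^ m := by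
        calc |(u : ℝ) + v * A + w * A ^ 2| * (b : ℝ) ^ m * (b : ℝ) ^ m =
              |((u : ℝ) + v * A + w * A ^ 2) * (b : ℝ) ^ (2 * m)| := by
              rw [abs_mul, abs_of_pos (by positivity : 0 < (b : ℝ) ^ (2 * m))]
              ring
          _ = |(v + 2 * w * A) * ((b : ℝ) ^ m * θ m) - w * θ m ^ 2 - r| := by rw [h1]
          _ ≤ |(v + 2 * w * A) * ((b : ℝ) ^ m * θ m)| + |w * θ m ^ 2| + |(r : ℝ)| :=
              (abs_sub _ _).trans (by gcongr; exact abs_sub _ _)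
          _ = |(v : ℝ) + 2 * w * A| * ((b : ℝ) ^ m * θ m) + |(w : ℝ)| * θ m ^ 2 + |(r : ℝ)| := by
              rw [abs_mul _ ((b : ℝ) ^ m * θ m), abs_mul _ (θ m ^ 2),
                abs_of_nonneg (mul_nonneg (hpow0 m).le (hθ0 m)),
                abs_of_nonneg (sq_nonneg (θ m))]
          _ ≤ |(v : ℝ) + 2 * w * A| * ((b : ℝ) ^ m * 1) + |(w : ℝ)| * (1 * (b : ℝ) ^ m) +
              |(r : ℝ)| * (b : ℝ) ^ m := by
              have h3 : θ m ^ 2 ≤ 1 * (b : ℝ) ^ m := by linarith [hθθ m, hpow1 m]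
              have h4 : |(r : ℝ)| ≤ |(r : ℝ)| * (b : ℝ) ^ m :=
                le_mul_of_one_le_right (abs_nonneg _) (hpow1 m)
              gcongr
              exact (hθ1 m).le
          _ = _ := by ring
      exact le_of_mul_le_mul_right h2 (hpow0 m)
    have hlin : (v : ℝ) + 2 * w * A = 0 := by
      apply hridA _ (|(w : ℝ)| + |(r : ℝ)|)
      refine hrel.mono ?_
      intro m h
      have h' : (u : ℝ) * (b : ℝ) ^ (2 * m) + v * ((b : ℝ) ^ m * x m) +
        w * (x m : ℝ) ^ 2 + r = 0 := h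
      rw [hexp m, hlim] at h'
      have h1 : (v + 2 * w * A) * ((b : ℝ) ^ m * θ m) = w * θ m ^ 2 + r := by linarith
      calc |(v : ℝ) + 2 * w * A| * (b : ℝ) ^ m * θ m =
            |(v + 2 * w * A) * ((b : ℝ) ^ m * θ m)| := by
            rw [abs_mul, abs_of_nonneg (mul_nonneg (hpow0 m).le (hθ0 m))]
            ring
        _ = |w * θ m ^ 2 + r| := by rw [h1]
        _ ≤ |w * θ m ^ 2| + |(r : ℝ)| := abs_add_le _ _
        _ = |(w : ℝ)| * θ m ^ 2 + |(r : ℝ)| := by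
            rw [abs_mul, abs_of_nonneg (sq_nonneg (θ m))]
        _ ≤ |(w : ℝ)| * 1 + |(r : ℝ)| := by
            have := hθθ m
            gcongr
        _ = _ := by ring
    obtain ⟨hv0, hw0⟩ := irr_rel hA' v (2 * w) (by push_cast; exact hlin)
    have hw0' : w = 0 := by omega
    have hu0 : u = 0 := by
      rw [hv0, hw0'] at hlim
      simpa using hlim
    have hd2 : d 2 = 0 := by
      rw [hw] at hw0'
      have : d 2 * c2 = 0 := by omega
      exact (mul_eq_zero.1 this).resolve_right h2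
    have hd1 : d 1 = 0 := by
      rw [hv, hd2] at hv0
      have : c3 * d 1 = 0 := by simpa using hv0
      exact (mul_eq_zero.1 this).resolve_left h3
    have hd00 : d 0 = 0 := by
      rw [hu] at hu0
      exact (mul_eq_zero.1 hu0).resolve_left h3
    obtain ⟨m, hm⟩ := hrel.nonempty
    have hm' : (u : ℝ) * (b : ℝ) ^ (2 * m) + v * ((b : ℝ) ^ m * x m) +
        w * (x m : ℝ) ^ 2 + r = 0 := hm
    rw [hu0, hv0, hw0', hr, hd2] at hm'
    have hd3 : d 3 = 0 := by
      have h4 : (c3 : ℝ) * d 3 = 0 := by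
        push_cast at hm'
        linarith
      exact_mod_cast (mul_eq_zero.1 h4).resolve_left h3R
    apply hd0
    funext l
    fin_cases l
    · exact hd00
    · exact hd1
    · exact hd2
    · exact hd3
  -- Part II: the five-dimensional subspace theorem
  obtain ⟨c, hc0, hc⟩ := sub_gcd hb (n := 5) (by norm_num)
    !![1, 0, 0, 0, 0; -A, 1, 0, 0, 0; -B, 0, 1, 0, 0; A * B, -B, -A, 1, -1; 0, 0, 0, 0, 1]
    (by
      intro i j
      fin_cases i <;> fin_cases j <;>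
        first
        | exact isAlgebraic_one
        | exact isAlgebraic_zero
        | exact isAlgebraic_one.neg
        | exact hA.neg
        | exact hB.neg
        | exact hA.mul hB)
    (by
      simp [Matrix.det_succ_row_zero, Fin.sum_univ_succ, Fin.succAbove])
    ![2, 1, 1, 0, 0] 3 g ε ![2, 1, 1, 0, 0] 1 one_pos
    (by simp [Fin.sum_univ_succ]; linarith)
    (fun m => ![(b : ℤ) ^ (2 * m), (b : ℤ) ^ m * x m, (b : ℤ) ^ m * y m, x m * y m + 1, 1]) S hS
    (by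
      intro m _ h0
      have := congrFun h0 0
      simp at this
      omega)
    (by
      intro m _
      have h1 : ((Int.gcd (x m * y m + 1) ((b : ℤ) ^ m) : ℕ) : ℤ) ∣ (b : ℤ) ^ m :=
        Int.gcd_dvd_right _ _
      exact_mod_cast h1)
    (fun m hm => hm)
    (by
      intro m _ l
      fin_cases l
      · simp
      · simp
      · simp
      · simp only [Matrix.cons_val, Fin.reduceFinMk, zero_mul, pow_zero, if_true, one_mul]
        exact Int.gcd_dvd_left _ _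
      · simp)
    (by
      intro m _ l
      fin_cases l
      · simp [Fin.sum_univ_succ]
        rw [← Real.rpow_natCast]
        push_cast
        exact le_refl _
      · simp [Fin.sum_univ_succ]
        have h1 : -(A * (b : ℝ) ^ (2 * m)) + (b : ℝ) ^ m * x m = -((b : ℝ) ^ m * θ m) := by
          rw [hxe m]
          ring
        rw [h1, abs_neg, abs_of_nonneg (mul_nonneg (hpow0 m).le (hθ0 m))]
        nlinarith [hθ1 m, hpow0 m]
      · simp [Fin.sum_univ_succ]
        have h1 : -(B * (b : ℝ) ^ (2 * m)) + (b : ℝ) ^ m * y m = -((b : ℝ) ^ m * ψ m) := by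
          rw [hye m]
          ring
        rw [h1, abs_neg, abs_of_nonneg (mul_nonneg (hpow0 m).le (hψ0 m))]
        nlinarith [hψ1 m, hpow0 m]
      · simp [Fin.sum_univ_succ]
        have h1 : A * B * (b : ℝ) ^ (2 * m) + (-(B * ((b : ℝ) ^ m * x m)) +
            (-(A * ((b : ℝ) ^ m * y m)) + ((x m : ℝ) * y m))) = θ m * ψ m := by
          rw [hxe m, hye m]
          ring
        rw [h1, abs_of_nonneg (hθψ0 m)]
        exact hθψ m
      · simp [Fin.sum_univ_succ])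
  simp only [Fin.sum_univ_succ, Matrix.cons_val_zero, Matrix.cons_val_succ, Fin.succ_zero_eq_one,
    Fin.succ_one_eq_two, Finset.univ_eq_empty, Finset.sum_empty] at hc
  replace hc : {m : ℕ | m ∈ S ∧ c 0 * (b : ℤ) ^ (2 * m) + c 1 * ((b : ℤ) ^ m * x m) +
      c 2 * ((b : ℤ) ^ m * y m) + c 3 * (x m * y m + 1) + c 4 = 0}.Infinite := by
    refine hc.mono ?_
    rintro m ⟨hm, h⟩
    refine ⟨hm, ?_⟩
    have h' : c 0 * (b : ℤ) ^ (2 * m) + (c 1 * ((b : ℤ) ^ m * x m) + (c 2 * ((b : ℤ) ^ m * y m) +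
      (c 3 * (x m * y m + 1) + (c 4 * 1 + 0)))) = 0 := h
    linear_combination h'
  set P : ℝ := c 0 + c 1 * A + c 2 * B + c 3 * (A * B) with hP
  set K1 : ℝ := c 1 + c 3 * B with hK1
  set K2 : ℝ := c 2 + c 3 * A with hK2
  have hrel : {m : ℕ | m ∈ S ∧ P * (b : ℝ) ^ (2 * m) - (b : ℝ) ^ m * (K1 * θ m + K2 * ψ m) +
      c 3 * (θ m * ψ m) + (c 3 + c 4) = 0}.Infinite := by
    refine hc.mono ?_
    rintro m ⟨hm, h⟩
    refine ⟨hm, ?_⟩
    have h' := congrArg (Int.cast : ℤ → ℝ) h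
    push_cast at h'
    rw [hxe m, hye m] at h'
    rw [hP, hK1, hK2]
    linear_combination h'
  by_cases h3 : c 3 = 0
  · -- `b ^ m` divides `c 4`
    have hc4 : c 4 = 0 := by
      obtain ⟨m, ⟨hm, h⟩, hlt⟩ := hc.exists_gt (c 4).natAbs
      have h1 : (b : ℤ) ^ m ∣ c 4 := by
        refine ⟨-(c 0 * (b : ℤ) ^ m + c 1 * x m + c 2 * y m), ?_⟩
        rw [h3] at h
        linear_combination h
      by_contra hne
      have h2 := Int.le_of_dvd (abs_pos.2 hne) ((dvd_abs _ _).2 h1)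
      have h4 : (m : ℤ) < (b : ℤ) ^ m := by
        have : m < b ^ m := Nat.lt_pow_self (by omega)
        exact_mod_cast this
      have h5 : ((c 4).natAbs : ℤ) = |c 4| := Int.natCast_natAbs _
      have h6 : ((c 4).natAbs : ℤ) < m := by exact_mod_cast hlt
      linarith
    obtain ⟨h0, h1, h2⟩ := part1 (c 0) (c 1) (c 2) (hc.mono (by
      rintro m ⟨hm, h⟩
      refine ⟨hm, ?_⟩
      rw [h3, hc4] at h
      have h1 : (b : ℤ) ^ m * (c 0 * (b : ℤ) ^ m + c 1 * x m + c 2 * y m) = 0 := by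
        linear_combination h
      refine (mul_eq_zero.1 h1).resolve_left ?_
      exact pow_ne_zero _ (by omega)))
    apply hc0
    funext l
    fin_cases l
    · exact h0
    · exact h1
    · exact h2
    · exact h3
    · exact hc4
  · have h3R : (c 3 : ℝ) ≠ 0 := by exact_mod_cast h3
    have hK2' : K2 ≠ 0 := by
      intro h
      exact h3 (irr_rel hA' (c 2) (c 3) h).2
    have habs : ∀ m, |(c 3 : ℝ) * (θ m * ψ m) + (c 3 + c 4)| ≤ |(c 3 : ℝ)| + |(c 3 : ℝ) + c 4| := by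
      intro m
      calc |(c 3 : ℝ) * (θ m * ψ m) + (c 3 + c 4)| ≤ |(c 3 : ℝ) * (θ m * ψ m)| + |(c 3 : ℝ) + c 4| :=
            abs_add_le _ _
        _ = |(c 3 : ℝ)| * (θ m * ψ m) + |(c 3 : ℝ) + c 4| := by
            rw [abs_mul, abs_of_nonneg (hθψ0 m)]
        _ ≤ |(c 3 : ℝ)| * 1 + |(c 3 : ℝ) + c 4| := by
            have := hθψ m
            gcongr
        _ = _ := by ring
    have hlim : P = 0 := by
      apply zero_of_inf hb1 _ (|K1| + |K2| + (|(c 3 : ℝ)| + |(c 3 : ℝ) + c 4|))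
      refine hrel.mono ?_
      rintro m ⟨_, h⟩
      have h1 : P * (b : ℝ) ^ (2 * m) = (b : ℝ) ^ m * (K1 * θ m + K2 * ψ m) -
          (c 3 * (θ m * ψ m) + (c 3 + c 4)) := by linarith
      have h2 : |P| * (b : ℝ) ^ m * (b : ℝ) ^ m ≤
          (|K1| + |K2| + (|(c 3 : ℝ)| + |(c 3 : ℝ) + c 4|)) * (b : ℝ) ^ m := by
        calc |P| * (b : ℝ) ^ m * (b : ℝ) ^ m = |P * (b : ℝ) ^ (2 * m)| := by
              rw [abs_mul, abs_of_pos (by positivity : 0 < (b : ℝ) ^ (2 * m))]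
              ring
          _ = |(b : ℝ) ^ m * (K1 * θ m + K2 * ψ m) - (c 3 * (θ m * ψ m) + (c 3 + c 4))| := by
              rw [h1]
          _ ≤ |(b : ℝ) ^ m * (K1 * θ m + K2 * ψ m)| + |(c 3 : ℝ) * (θ m * ψ m) + (c 3 + c 4)| :=
              abs_sub _ _
          _ ≤ (b : ℝ) ^ m * (|K1| * 1 + |K2| * 1) +
              (|(c 3 : ℝ)| + |(c 3 : ℝ) + c 4|) * (b : ℝ) ^ m := by
              have h4 : |(b : ℝ) ^ m * (K1 * θ m + K2 * ψ m)| ≤
                  (b : ℝ) ^ m * (|K1| * 1 + |K2| * 1) := by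
                rw [abs_mul, abs_of_pos (hpow0 m)]
                refine mul_le_mul_of_nonneg_left ?_ (hpow0 m).le
                refine (abs_add_le _ _).trans ?_
                rw [abs_mul, abs_mul, abs_of_nonneg (hθ0 m), abs_of_nonneg (hψ0 m)]
                have := (hθ1 m).le
                have := (hψ1 m).le
                gcongr
              have h5 : |(c 3 : ℝ)| + |(c 3 : ℝ) + c 4| ≤
                  (|(c 3 : ℝ)| + |(c 3 : ℝ) + c 4|) * (b : ℝ) ^ m :=
                le_mul_of_one_le_right (by positivity) (hpow1 m)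
              linarith [habs m]
          _ = _ := by ring
      exact le_of_mul_le_mul_right h2 (hpow0 m)
    set S2 : Set ℕ := {m : ℕ | m ∈ S ∧ P * (b : ℝ) ^ (2 * m) - (b : ℝ) ^ m * (K1 * θ m +
      K2 * ψ m) + c 3 * (θ m * ψ m) + (c 3 + c 4) = 0} with hS2
    obtain ⟨e, he0, he⟩ := sub_gcd hb (n := 3) (by norm_num)
      !![1, 0, 0; A, -1, 0; K1 * A + K2 * B, -K1, -K2]
      (by
        have hK1a : IsAlgebraic ℚ K1 := (hintalg _).add ((hintalg _).mul hB)
        have hK2a : IsAlgebraic ℚ K2 := (hintalg _).add ((hintalg _).mul hA)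
        clear_value K1 K2
        intro i j
        fin_cases i <;> fin_cases j
        · exact isAlgebraic_one
        · exact isAlgebraic_zero
        · exact isAlgebraic_zero
        · exact hA
        · exact isAlgebraic_one.neg
        · exact isAlgebraic_zero
        · exact (hK1a.mul hA).add (hK2a.mul hB)
        · exact hK1a.neg
        · exact hK2a.neg)
      (by
        simp [Matrix.det_succ_row_zero, Fin.sum_univ_succ, Fin.succAbove]
        exact hK2')
      ![1, 0, 0] 0 (fun _ => 1) 0 ![1, 0, -1] (1 + (|(c 3 : ℝ)| + |(c 3 : ℝ) + c 4|))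
      (by positivity)
      (by simp [Fin.sum_univ_succ])
      (fun m => ![(b : ℤ) ^ m, x m, y m]) S2 hrel
      (by
        intro m _ h0
        have := congrFun h0 0
        simp at this
        omega)
      (fun m _ => one_dvd _)
      (by simp)
      (by
        intro m _ l
        fin_cases l
        · simp
        · simp
        · simp)
      (by
        intro m hm l
        have hCC : (0 : ℝ) ≤ |(c 3 : ℝ)| + |(c 3 : ℝ) + c 4| := by positivity
        fin_cases l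
        · simp [Fin.sum_univ_succ]
          nlinarith [hpow0 m]
        · simp [Fin.sum_univ_succ]
          have h1 : A * (b : ℝ) ^ m + -(x m : ℝ) = θ m := by
            rw [hxe m]
            ring
          rw [h1, abs_of_nonneg (hθ0 m)]
          nlinarith [hθ1 m]
        · simp [Fin.sum_univ_succ]
          have h1 : (K1 * A + K2 * B) * (b : ℝ) ^ m + (-(K1 * (x m : ℝ)) + -(K2 * (y m : ℝ))) =
              K1 * θ m + K2 * ψ m := by
            rw [hxe m, hye m]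
            ring
          rw [h1, ← div_eq_mul_inv, le_div_iff₀ (hpow0 m)]
          obtain ⟨_, h⟩ := hm
          rw [hlim] at h
          have h2 : (b : ℝ) ^ m * (K1 * θ m + K2 * ψ m) =
              c 3 * (θ m * ψ m) + (c 3 + c 4) := by linarith
          calc |K1 * θ m + K2 * ψ m| * (b : ℝ) ^ m = |(b : ℝ) ^ m * (K1 * θ m + K2 * ψ m)| := by
                rw [abs_mul, abs_of_pos (hpow0 m)]
                ring
            _ = |(c 3 : ℝ) * (θ m * ψ m) + (c 3 + c 4)| := by rw [h2]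
            _ ≤ _ := by linarith [habs m])
    simp only [Fin.sum_univ_succ, Matrix.cons_val_zero, Matrix.cons_val_succ,
      Fin.succ_zero_eq_one, Fin.succ_one_eq_two, Finset.univ_eq_empty, Finset.sum_empty] at he
    obtain ⟨h0, h1, h2⟩ := part1 (e 0) (e 1) (e 2) (he.mono (by
      rintro m ⟨hm, h⟩
      refine ⟨hm.1, ?_⟩
      linear_combination h))
    apply he0
    funext l
    fin_cases l
    · exact h0
    · exact h1
    · exact h2

/-- **For every integer base `b ≥ 2`, all irrational real algebraic numbers `α`, `β`, every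
`ε > 0` and every `k ≥ 0` one has `gcd(⌊α b ^ (k + m)⌋ ⌊β b ^ m⌋ + 1, b ^ m) < b ^ (ε m)` for all
sufficiently large `m`.** -/
theorem result (b : ℕ) (hb : 2 ≤ b) (α β : ℝ) (hα : IsAlgebraic ℚ α) (hβ : IsAlgebraic ℚ β)
    (hα' : Irrational α) (hβ' : Irrational β) (ε : ℝ) (hε : 0 < ε) (k : ℕ) :
    ∃ M : ℕ, ∀ m : ℕ, M ≤ m →
      ((Int.gcd (⌊α * (b : ℝ) ^ (k + m)⌋ * ⌊β * (b : ℝ) ^ m⌋ + 1) ((b : ℤ) ^ m) : ℕ) : ℝ) <
        (b : ℝ) ^ (ε * m) := by
  have hbalg : IsAlgebraic ℚ ((b : ℝ) ^ k) := (isAlgebraic_natCast b).pow k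
  have hb0 : ((b : ℚ) ^ k) ≠ 0 := pow_ne_zero _ (by
    have : (2 : ℚ) ≤ b := by exact_mod_cast hb
    intro h
    rw [h] at this
    norm_num at this)
  have hirr : Irrational (α * (b : ℝ) ^ k) := by
    have := hα'.mul_ratCast hb0
    push_cast at this
    exact this
  obtain ⟨M, hM⟩ := core b hb (α * (b : ℝ) ^ k) β (hα.mul hbalg) hβ hirr hβ' ε hε
  refine ⟨M, fun m hm => ?_⟩
  have := hM m hm
  rw [mul_assoc, ← pow_add] at this
  exact this

end Pool.Agent.Results.MP_077ac3_nt.ProductFloorGcd
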